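import Pool.Agent.Helper99.LZ.Goals

/-!
# Product theorem for HH1, packet PERT: the perturbed contexts
-/

set_option autoImplicit false

open Finset Filter Topology

namespace Pool.Agent.Helper77.LZ

open Pool.Agent.Helper99.LZ

variable {V : Type} [AddCommGroup V] [Module ℝ V]

/-! ### the class -/

theorem pert_HH (h1 : StmtSTEP) {S : Ctx V} {a b : ℤ} (hS : S.HH a b) {ε : ℝ} (hε : 0 < ε)
    (N : ℕ) : (S.pert ε N).HH (a - N) (b + N) := by
  induction N with
  | zero =>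
    show S.HH (a - ((0 : ℕ) : ℤ)) (b + ((0 : ℕ) : ℤ))
    simpa using hS
  | succ N ih =>
    have s1 := h1 V (S.pert ε N) _ _ 1 ε ih (Or.inl rfl) hε
    have s2 := h1 V ((S.pert ε N).sh 1 ε) _ _ (-1) ε s1 (Or.inr rfl) hε
    have e1 : min (min (a - (N : ℤ)) (a - N + 1)) (min (a - (N : ℤ)) (a - N + 1) + -1) =
        a - ((N + 1 : ℕ) : ℤ) := by
      push_cast
      omega
    have e2 : max (max (b + (N : ℤ)) (b + N + 1)) (max (b + (N : ℤ)) (b + N + 1) + -1) =
        b + ((N + 1 : ℕ) : ℤ) := by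
      push_cast
      omega
    rw [e1, e2] at s2
    exact s2

theorem pert_X (S : Ctx V) (ε : ℝ) (N : ℕ) : (S.pert ε N).X = S.X := by
  induction N with
  | zero => rfl
  | succ N ih => exact ih

theorem pert_Y (S : Ctx V) (ε : ℝ) (N : ℕ) : (S.pert ε N).Y = S.Y := by
  induction N with
  | zero => rfl
  | succ N ih => exact ih

/-! ### the radicals -/

theorem step_rad2 (h1 : StmtSTEP) (h2 : StmtRAD) {A : Ctx V} {a b : ℤ} (hA : A.HH a b) {ε : ℝ}
    (hε : 0 < ε) {q : ℤ} {u : V} (h : ∀ z, ((A.sh 1 ε).sh (-1) ε).D (q - 2) q u z = 0) (j : ℤ)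
    (hj1 : -1 ≤ j) (hj2 : j ≤ 1) (z : V) : A.D (q + j - 2) (q + j) u z = 0 := by
  have hB := h1 V A a b 1 ε hA (Or.inl rfl) hε
  have r1 := (h2 V (A.sh 1 ε) _ _ (-1) ε hB (Or.inr rfl) hε).1 q u h
  have r2 := (h2 V A a b 1 ε hA (Or.inl rfl) hε).1 q u r1.1
  have r3 := (h2 V A a b 1 ε hA (Or.inl rfl) hε).1 (q - -1) u r1.2
  obtain rfl | rfl | rfl : j = -1 ∨ j = 0 ∨ j = 1 := by omega
  · have := r2.2 z
    rw [show q + -1 - 2 = q - 1 - 2 by ring, show q + -1 = q - 1 by ring]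
    exact this
  · have := r2.1 z
    rw [show q + 0 - 2 = q - 2 by ring, show q + 0 = q by ring]
    exact this
  · have := r3.1 z
    rw [show q + 1 - 2 = q - -1 - 2 by ring, show q + 1 = q - -1 by ring]
    exact this

theorem step_rad (h1 : StmtSTEP) (h2 : StmtRAD) {A : Ctx V} {a b : ℤ} (hA : A.HH a b) {ε : ℝ}
    (hε : 0 < ε) {p q : ℤ} (hpq : q - 1 ≤ p) {u : V × ℝ}
    (h : ∀ z, ((A.sh 1 ε).sh (-1) ε).full p q u z = 0) (j : ℤ)
    (hj1 : -1 ≤ j) (hj2 : j ≤ 1) (z : V × ℝ) : A.full (p + j) (q + j) u z = 0 := by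
  have hB := h1 V A a b 1 ε hA (Or.inl rfl) hε
  have r1 := (h2 V (A.sh 1 ε) _ _ (-1) ε hB (Or.inr rfl) hε).2 p q u hpq h
  have r2 := (h2 V A a b 1 ε hA (Or.inl rfl) hε).2 p q u hpq r1.1
  have r3 := (h2 V A a b 1 ε hA (Or.inl rfl) hε).2 (p - -1) (q - -1) u (by omega) r1.2
  obtain rfl | rfl | rfl : j = -1 ∨ j = 0 ∨ j = 1 := by omega
  · have := r2.2 z
    rw [show p + -1 = p - 1 by ring, show q + -1 = q - 1 by ring]
    exact this
  · have := r2.1 z
    rw [show p + 0 = p by ring, show q + 0 = q by ring]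
    exact this
  · have := r3.1 z
    rw [show p + 1 = p - -1 by ring, show q + 1 = q - -1 by ring]
    exact this

theorem pert_rad2 (h1 : StmtSTEP) (h2 : StmtRAD) {S : Ctx V} {a b : ℤ} (hS : S.HH a b) {ε : ℝ}
    (hε : 0 < ε) (N : ℕ) : ∀ (q : ℤ) (u : V), (∀ z, (S.pert ε N).D (q - 2) q u z = 0) →
    ∀ j : ℤ, -(N : ℤ) ≤ j → j ≤ N → ∀ z, S.D (q + j - 2) (q + j) u z = 0 := by
  induction N with
  | zero =>
    intro q u h j hj1 hj2 z
    have hj : j = 0 := by
      push_cast at hj1 hj2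
      omega
    subst hj
    rw [show q + 0 - 2 = q - 2 by ring, show q + 0 = q by ring]
    exact h z
  | succ N ih =>
    intro q u h j hj1 hj2 z
    push_cast at hj1 hj2
    have hA := pert_HH h1 hS hε N
    have key := step_rad2 h1 h2 hA hε (q := q) (u := u) h
    obtain ⟨i, hi1, hi2, hi3, hi4⟩ : ∃ i : ℤ, -1 ≤ i ∧ i ≤ 1 ∧ -(N : ℤ) ≤ j - i ∧ j - i ≤ N := by
      rcases lt_trichotomy j 0 with hj | hj | hj
      · exact ⟨-1, by omega, by omega, by omega, by omega⟩
      · exact ⟨0, by omega, by omega, by omega, by omega⟩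
      · exact ⟨1, by omega, by omega, by omega, by omega⟩
    have := ih (q + i) u (key i hi1 hi2) (j - i) hi3 hi4 z
    rw [show q + i + (j - i) - 2 = q + j - 2 by ring, show q + i + (j - i) = q + j by ring] at this
    exact this

theorem pert_rad (h1 : StmtSTEP) (h2 : StmtRAD) {S : Ctx V} {a b : ℤ} (hS : S.HH a b) {ε : ℝ}
    (hε : 0 < ε) (N : ℕ) : ∀ (p q : ℤ) (u : V × ℝ), q - 1 ≤ p →
    (∀ z, (S.pert ε N).full p q u z = 0) →
    ∀ j : ℤ, -(N : ℤ) ≤ j → j ≤ N → ∀ z, S.full (p + j) (q + j) u z = 0 := by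
  induction N with
  | zero =>
    intro p q u _ h j hj1 hj2 z
    have hj : j = 0 := by
      push_cast at hj1 hj2
      omega
    subst hj
    rw [show p + 0 = p by ring, show q + 0 = q by ring]
    exact h z
  | succ N ih =>
    intro p q u hpq h j hj1 hj2 z
    push_cast at hj1 hj2
    have hA := pert_HH h1 hS hε N
    have key := step_rad h1 h2 hA hε hpq (u := u) h
    obtain ⟨i, hi1, hi2, hi3, hi4⟩ : ∃ i : ℤ, -1 ≤ i ∧ i ≤ 1 ∧ -(N : ℤ) ≤ j - i ∧ j - i ≤ N := by
      rcases lt_trichotomy j 0 with hj | hj | hj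
      · exact ⟨-1, by omega, by omega, by omega, by omega⟩
      · exact ⟨0, by omega, by omega, by omega, by omega⟩
      · exact ⟨1, by omega, by omega, by omega, by omega⟩
    have := ih (p + i) (q + i) u (by omega) (key i hi1 hi2) (j - i) hi3 hi4 z
    rw [show p + i + (j - i) = p + j by ring, show q + i + (j - i) = q + j by ring] at this
    exact this

/-! ### entries -/

theorem D_X {S : Ctx V} (hS : S.Rel) (p q : ℤ) (x y : ℝ) :
    S.D p q (x • S.X + y • S.Y) S.X = x * S.pr.H (p + 2) q + y * S.pr.H (p + 1) (q - 1) := by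
  rw [map_add, map_smul, map_smul, LinearMap.add_apply, LinearMap.smul_apply, LinearMap.smul_apply,
    hS.DX, hS.DY, hS.PX, hS.PX]
  simp only [smul_eq_mul, Pr.H, Ctx.pr]
  rw [show p + 1 + 1 = p + 2 by ring]

theorem D_Y {S : Ctx V} (hS : S.Rel) (p q : ℤ) (x y : ℝ) :
    S.D p q (x • S.X + y • S.Y) S.Y = x * S.pr.H (p + 1) (q - 1) + y * S.pr.H p (q - 2) := by
  rw [map_add, map_smul, map_smul, LinearMap.add_apply, LinearMap.smul_apply, LinearMap.smul_apply,
    hS.DX, hS.DY, hS.QY, hS.QY]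
  simp only [smul_eq_mul, Pr.H, Ctx.pr]
  rw [show q - 1 - 1 = q - 2 by ring]

theorem full_apply (S : Ctx V) (p q : ℤ) (u v : V × ℝ) :
    S.full p q u v = S.D p q u.1 v.1 + u.2 * (S.P p v.1 - S.Q q v.1)
      + v.2 * (S.P p u.1 - S.Q q u.1) + u.2 * v.2 * S.g p q := rfl

theorem full_X {S : Ctx V} (hS : S.Rel) (p q : ℤ) (x y w : ℝ) :
    S.full p q (x • S.X + y • S.Y, w) (S.X, 0) =
      x * S.pr.H (p + 2) q + y * S.pr.H (p + 1) (q - 1) + w * S.pr.H (p + 1) q := by
  rw [full_apply]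
  show S.D p q (x • S.X + y • S.Y) S.X + w * (S.P p S.X - S.Q q S.X) + 0 * _ + w * 0 * _ = _
  rw [D_X hS, hS.PX]
  simp only [Pr.H, Ctx.pr]
  ring

theorem full_Y {S : Ctx V} (hS : S.Rel) (p q : ℤ) (x y w : ℝ) :
    S.full p q (x • S.X + y • S.Y, w) (S.Y, 0) =
      x * S.pr.H (p + 1) (q - 1) + y * S.pr.H p (q - 2) + w * S.pr.H p (q - 1) := by
  rw [full_apply]
  show S.D p q (x • S.X + y • S.Y) S.Y + w * (S.P p S.Y - S.Q q S.Y) + 0 * _ + w * 0 * _ = _
  rw [D_Y hS, hS.QY]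
  simp only [Pr.H, Ctx.pr]
  ring

/-! ### regular pairs -/

theorem P_mono {T : Pr} {a b : ℤ} (h : T.Reg a b) {p p' : ℤ} (hp : p ≤ p') : T.P p ≤ T.P p' := by
  refine monotone_int_of_le_succ (fun k => ?_) hp
  have := h.L0 (k + 1)
  simp only [Pr.L, add_sub_cancel_right] at this
  linarith

theorem Fpos_le {T : Pr} {a b : ℤ} (h : T.Reg a b) {p q : ℤ} (hpq : q ≤ p) (h1 : a ≤ q)
    (h2 : q < b) : 0 < T.H p q := by
  have := h.Fpos q h1 h2
  have := P_mono h hpq
  simp only [Pr.F, Pr.H] at *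
  linarith

theorem pert (h1 : StmtSTEP) (h2 : StmtRAD) : StmtPERT := by
  intro V _ _ S a b hS n a₁ b₁
  obtain ⟨N, hN⟩ : ∃ N : ℕ, a ≤ (N : ℤ) ∧ (2 * (|a| + |b| + |n| + |a₁| + |b₁|) + 5 ≤ (N : ℤ)) := by
    refine ⟨(2 * (|a| + |b| + |n| + |a₁| + |b₁|) + 5).toNat, ?_, ?_⟩
    · have := le_abs_self a
      have := abs_nonneg b
      have := abs_nonneg n
      have := abs_nonneg a₁
      have := abs_nonneg b₁
      have := abs_nonneg a
      omega
    · exact Int.self_le_toNat _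
  have ha := abs_le.1 (le_refl |a|)
  have hb := abs_le.1 (le_refl |b|)
  have hn := abs_le.1 (le_refl |n|)
  have ha1 := abs_le.1 (le_refl |a₁|)
  have hb1 := abs_le.1 (le_refl |b₁|)
  generalize |a| = A at *
  generalize |b| = B at *
  generalize |n| = M at *
  generalize |a₁| = A₁ at *
  generalize |b₁| = B₁ at *
  refine ⟨N, fun ε hε => ⟨pert_HH h1 hS hε N, ?_⟩⟩
  have hP := pert_HH h1 hS hε N
  have hR := hS.toRel
  have hreg := hS.reg
  have lo1 : ∀ k < a, S.pr.P k = 0 := fun k hk => (hreg.lo k hk).1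
  have lo2 : ∀ k < a, S.pr.Q k = 0 := fun k hk => (hreg.lo k hk).2
  have hi1 : ∀ k ≥ b, S.pr.P k = S.pr.P b := fun k hk => (hreg.hi k hk).1
  have hi2 : ∀ k ≥ b, S.pr.Q k = S.pr.P b := fun k hk => (hreg.hi k hk).2
  have Fa := hreg.Fpos a le_rfl hreg.ab
  have Fb := hreg.Fpos (b - 1) (by have := hreg.ab; omega) (by omega)
  refine ⟨?_, ?_, ?_⟩
  · intro p q hq1 hq2 hp1 hp2
    exact Fpos_le hP.reg (by omega) (by omega) (by omega)
  · intro q hq1 hq2 x y h
    rw [pert_X, pert_Y] at h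
    have key := pert_rad2 h1 h2 hS hε N q _ h
    have k1 := key (a - q) (by omega) (by omega) S.X
    rw [show q + (a - q) = a by ring, D_X hR] at k1
    have e1 : S.pr.H (a - 2 + 2) a = S.pr.F a := by
      rw [show a - 2 + 2 = a by ring]
      rfl
    have e2 : S.pr.H (a - 2 + 1) (a - 1) = 0 := by
      simp only [Pr.H]
      rw [lo1 _ (by omega), lo2 _ (by omega)]
      ring
    rw [e1, e2, mul_zero, add_zero] at k1
    have hx : x = 0 := (mul_eq_zero.1 k1).resolve_right Fa.ne'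
    have k2 := key (b + 1 - q) (by omega) (by omega) S.Y
    rw [show q + (b + 1 - q) = b + 1 by ring, D_Y hR, hx, zero_mul, zero_add] at k2
    have e3 : S.pr.H (b + 1 - 2) (b + 1 - 2) = S.pr.F (b - 1) := by
      rw [show b + 1 - 2 = b - 1 by ring]
      rfl
    rw [e3] at k2
    exact ⟨hx, (mul_eq_zero.1 k2).resolve_right Fb.ne'⟩
  · intro p q hq1 hq2 hp1 hp2 x y w h
    rw [pert_X, pert_Y] at h
    have key := pert_rad h1 h2 hS hε N p q _ hp1 h
    -- `x = 0`
    have k1 := key (a - 2 - p) (by omega) (by omega) (S.X, 0)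
    rw [full_X hR] at k1
    have e1 : S.pr.H (p + (a - 2 - p) + 2) (q + (a - 2 - p)) = S.pr.P a := by
      simp only [Pr.H]
      rw [lo2 _ (by omega), show p + (a - 2 - p) + 2 = a by ring]
      ring
    have e2 : S.pr.H (p + (a - 2 - p) + 1) (q + (a - 2 - p) - 1) = 0 := by
      simp only [Pr.H]
      rw [lo2 _ (by omega), lo1 _ (by omega)]
      ring
    have e3 : S.pr.H (p + (a - 2 - p) + 1) (q + (a - 2 - p)) = 0 := by
      simp only [Pr.H]
      rw [lo2 _ (by omega), lo1 _ (by omega)]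
      ring
    rw [e1, e2, e3, mul_zero, mul_zero, add_zero, add_zero] at k1
    have hPa : 0 < S.pr.P a := by
      have r := hreg.R0 a
      have l := lo2 (a - 1) (by omega)
      simp only [Pr.R, l] at r
      simp only [Pr.F, Pr.H] at Fa
      linarith
    have hx : x = 0 := (mul_eq_zero.1 k1).resolve_right hPa.ne'
    -- `y = 0`
    have k2 := key (b + 1 - q) (by omega) (by omega) (S.Y, 0)
    rw [full_Y hR, hx, zero_mul, zero_add] at k2
    have e4 : S.pr.H (p + (b + 1 - q)) (q + (b + 1 - q) - 2) = S.pr.L b + S.pr.F (b - 1) := by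
      simp only [Pr.H, Pr.L, Pr.F]
      rw [hi1 _ (by omega), show q + (b + 1 - q) - 2 = b - 1 by ring]
      ring
    have e5 : S.pr.H (p + (b + 1 - q)) (q + (b + 1 - q) - 1) = 0 := by
      simp only [Pr.H]
      rw [hi1 _ (by omega), hi2 _ (by omega)]
      ring
    rw [e4, e5, mul_zero, add_zero] at k2
    have hRb : 0 < S.pr.L b + S.pr.F (b - 1) := by
      have := hreg.L0 b
      linarith
    have hy : y = 0 := (mul_eq_zero.1 k2).resolve_right hRb.ne'
    -- `w = 0`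
    have k3 := key (a - q) (by omega) (by omega) (S.X, 0)
    rw [full_X hR, hx, hy, zero_mul, zero_mul, zero_add, zero_add] at k3
    have e6 : 0 < S.pr.H (p + (a - q) + 1) (q + (a - q)) :=
      Fpos_le hreg (by omega) (by omega) (by have := hreg.ab; omega)
    exact ⟨hx, hy, (mul_eq_zero.1 k3).resolve_right e6.ne'⟩

end Pool.Agent.Helper77.LZ
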